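import Pool.Agent.Helper96.OP.Defs2
import Pool.Agent.Helper7.OP.Cuts1

/-!
# Module C2: the preimages of the half spaces under Whitehead automorphisms
-/

set_option autoImplicit false

open Finset

open Pool.Agent.Helper96.OP
open Pool.Agent.Helper7.OP (cut_compl cut_smul cut_aut cut_hs_compl cut_hs_inv hgt_eq)

namespace Pool.Agent.Helper23.OP

variable {ι : Type} [DecidableEq ι]

/-! ### first letters -/

lemma toWord_el_mul (x : Ltr ι) (g : FreeGroup ι) :
    (el x * g).toWord = if fl g = some (inv x) then g.toWord.tail else x :: g.toWord := by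
  have h1 : el x * g = FreeGroup.mk (x :: g.toWord) := by
    conv_lhs => rw [← FreeGroup.mk_toWord (x := g)]
    rfl
  rw [h1, FreeGroup.toWord_mk, FreeGroup.reduce.cons, FreeGroup.reduce_toWord, fl]
  obtain ⟨i, b⟩ := x
  rcases h2 : g.toWord with _ | ⟨⟨j, c⟩, L⟩
  · simp
  · simp only [List.head?_cons, Option.some.injEq, inv, Prod.mk.injEq, List.tail_cons]
    cases b <;> cases c <;> by_cases hij : i = j <;> simp [hij, eq_comm]

lemma fl_one : fl (1 : FreeGroup ι) = none := by simp [fl]

lemma fl_eq_none {g : FreeGroup ι} : fl g = none ↔ g = 1 := by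
  rw [fl, List.head?_eq_none_iff, FreeGroup.toWord_eq_nil_iff]

lemma fl_el_mul {x : Ltr ι} {g : FreeGroup ι} (h : fl g ≠ some (inv x)) :
    fl (el x * g) = some x := by
  rw [fl, toWord_el_mul, if_neg h, List.head?_cons]

lemma norm_el_mul_lt {x : Ltr ι} {g : FreeGroup ι} (h : fl g = some (inv x)) :
    (el x * g).norm < g.norm := by
  rw [FreeGroup.norm, toWord_el_mul, if_pos h, FreeGroup.norm]
  rw [fl] at h
  rcases h2 : g.toWord with _ | ⟨y, L⟩
  · rw [h2] at h; simp at h
  · simp

/-- the next letter is not the inverse of the first one -/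
lemma fl_inv_mul_ne {x : Ltr ι} {g : FreeGroup ι} (h : fl g = some x) :
    fl (el (inv x) * g) ≠ some (inv x) := by
  intro h1
  have h2 : g = el x * (el (inv x) * g) := by rw [el_inv, mul_inv_cancel_left]
  have h3 : (el x * (el (inv x) * g)).norm < (el (inv x) * g).norm := norm_el_mul_lt h1
  rw [← h2] at h3
  have h4 := norm_el_mul_lt (x := inv x) (g := g) (by rw [inv_inv]; exact h)
  omega

/-- the ping-pong description of an automorphism -/
theorem fl_of_label (α : MulAut (FreeGroup ι)) (lab : FreeGroup ι → Option (Ltr ι))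
    (h1 : lab 1 = none)
    (h2 : ∀ x g, lab g = some x ↔ lab (α.symm (el (inv x)) * g) ≠ some (inv x))
    (g : FreeGroup ι) : fl (α g) = lab g := by
  induction hn : (α g).norm using Nat.strong_induction_on generalizing g with
  | _ n ih =>
    rcases h3 : fl (α g) with _ | x
    · have : g = 1 := by
        have := fl_eq_none.1 h3
        exact (map_eq_one_iff α α.injective).1 this
      rw [this, h1]
    · symm
      rw [h2]
      have e1 : α (α.symm (el (inv x)) * g) = el (inv x) * α g := by
        rw [map_mul]; congr 1; exact α.apply_symm_apply _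
      have h4 : (α (α.symm (el (inv x)) * g)).norm < n := by
        rw [e1, ← hn]
        exact norm_el_mul_lt (by rw [inv_inv]; exact h3)
      rw [← ih _ h4 _ rfl, e1]
      exact fl_inv_mul_ne h3

/-! ### the label of a Whitehead automorphism -/

/-- the first letter of the image under `twc b B`, base point not in `B` -/
def lab (b : Ltr ι) (B : Finset (Option (Ltr ι))) (g : FreeGroup ι) : Option (Ltr ι) :=
  if fl g ∈ B then some b else
    if fl g = some (inv b) then
      (if fl (el b * g) ∈ B then fl (el b * g) else some (inv b)) else fl g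

lemma tw_symm (a : Ltr ι) (f : Ltr ι → ℤ) (x : Ltr ι) :
    (tw a f).symm (el x) = if x.1 = a.1 then el x else el a ^ (-f x) * el x * el a ^ (f (inv x)) := by
  have : (tw a f).symm (el x) = homT a (-f) (el x) := rfl
  rw [this, homT_el]
  simp

lemma fl_el_mul_iff (x : Ltr ι) (g : FreeGroup ι) :
    fl (el x * g) = some x ↔ fl g ≠ some (inv x) := by
  constructor
  · intro h1 h2
    have h3 := fl_inv_mul_ne (x := inv x) h2
    rw [inv_inv] at h3
    exact h3 h1
  · exact fl_el_mul

lemma lab_b {b : Ltr ι} {B : Finset (Option (Ltr ι))} (hB : Adm b B) (g : FreeGroup ι) :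
    lab b B g = some b ↔ fl g ∈ B := by
  obtain ⟨hb, hb'⟩ := hB
  unfold lab
  by_cases h1 : fl g ∈ B
  · simp [h1]
  · rw [if_neg h1]
    simp only [h1, iff_false]
    by_cases h2 : fl g = some (inv b)
    · rw [if_pos h2]
      split_ifs with h3
      · intro h4
        exact (fl_el_mul_iff b g).1 h4 h2
      · intro h4
        exact inv_ne b (Option.some.inj h4)
    · rw [if_neg h2]
      intro h4
      rw [h4] at h1
      exact h1 hb

lemma lab_binv {b : Ltr ι} {B : Finset (Option (Ltr ι))} (hB : Adm b B) (g : FreeGroup ι) :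
    lab b B g = some (inv b) ↔ fl (el b * g) ∉ B := by
  obtain ⟨hb, hb'⟩ := hB
  unfold lab
  by_cases h2 : fl g = some (inv b)
  · have h1 : fl g ∉ B := by rw [h2]; exact hb'
    rw [if_neg h1, if_pos h2]
    split_ifs with h3
    · simp only [h3, not_true, iff_false]
      intro h4
      rw [h4] at h3
      exact hb' h3
    · simp [h3]
  · have h3 : fl (el b * g) = some b := fl_el_mul h2
    rw [h3]
    simp only [hb, not_true, iff_false]
    by_cases h1 : fl g ∈ B
    · rw [if_pos h1]
      intro h4
      exact ne_inv b (Option.some.inj h4)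
    · rw [if_neg h1, if_neg h2]
      exact h2

lemma lab_notMem {b x : Ltr ι} {B : Finset (Option (Ltr ι))} (hx : x.1 ≠ b.1)
    (hxB : some x ∉ B) (g : FreeGroup ι) : lab b B g = some x ↔ fl g = some x := by
  have hxb : b ≠ x := fun h => hx (by rw [h])
  have hxb' : inv b ≠ x := fun h => hx (by rw [← h]; rfl)
  unfold lab
  by_cases h1 : fl g ∈ B
  · rw [if_pos h1]
    constructor
    · intro h; exact absurd (Option.some.inj h) hxb
    · intro h; rw [h] at h1; exact absurd h1 hxB
  · rw [if_neg h1]
    by_cases h2 : fl g = some (inv b)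
    · rw [if_pos h2, h2]
      have h4 : some (inv b) ≠ some x := fun h => hxb' (Option.some.inj h)
      simp only [h4, iff_false]
      split_ifs with h3
      · intro h; rw [h] at h3; exact hxB h3
      · exact h4
    · rw [if_neg h2]

lemma lab_mem {b x : Ltr ι} {B : Finset (Option (Ltr ι))} (hB : Adm b B) (hx : x.1 ≠ b.1)
    (hxB : some x ∈ B) (g : FreeGroup ι) : lab b B g = some x ↔ fl (el b * g) = some x := by
  obtain ⟨hb, hb'⟩ := hB
  have hxb : b ≠ x := fun h => hx (by rw [h])
  have hxb' : inv b ≠ x := fun h => hx (by rw [← h]; rfl)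
  unfold lab
  by_cases h2 : fl g = some (inv b)
  · have h1 : fl g ∉ B := by rw [h2]; exact hb'
    rw [if_neg h1, if_pos h2]
    split_ifs with h3
    · rfl
    · constructor
      · intro h; exact absurd (Option.some.inj h) hxb'
      · intro h; rw [h] at h3; exact absurd hxB h3
  · have h3 : fl (el b * g) = some b := fl_el_mul h2
    rw [h3]
    have h4 : some b ≠ some x := fun h => hxb (Option.some.inj h)
    simp only [h4, iff_false]
    by_cases h1 : fl g ∈ B
    · rw [if_pos h1]; exact h4
    · rw [if_neg h1, if_neg h2]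
      intro h; rw [h] at h1; exact h1 hxB

theorem fl_twc (b : Ltr ι) (B : Finset (Option (Ltr ι))) (hB : Adm b B) (h0 : none ∉ B)
    (g : FreeGroup ι) : fl (twc b B g) = lab b B g := by
  refine fl_of_label (twc b B) (lab b B) ?_ ?_ g
  · simp [lab, fl_one, h0]
  · intro x g
    have key : ∀ (y : Ltr ι) (h : FreeGroup ι), fl h = some y ↔ fl (el (inv y) * h) ≠ some (inv y) := by
      intro y h
      rw [Ne, fl_el_mul_iff, inv_inv, not_not]
    -- the cases for `x`
    by_cases hx1 : x.1 = b.1
    · have hs : (twc b B).symm (el (inv x)) = el (inv x) := by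
        rw [twc, tw_symm, if_pos (by simpa using hx1)]
      rw [hs]
      rcases eq_or_eq_inv hx1 with rfl | rfl
      · -- x = b
        rw [lab_b hB, Ne, lab_binv hB, el_inv, mul_inv_cancel_left, not_not]
      · -- x = b⁻¹
        rw [inv_inv, lab_binv hB, Ne, lab_b hB]
    · have hs : (twc b B).symm (el (inv x)) =
          el b ^ (-(if some (inv x) ∈ B then 1 else 0 : ℤ)) * el (inv x) *
            el b ^ (if some x ∈ B then 1 else 0 : ℤ) := by
        rw [twc, tw_symm, if_neg (by simpa using hx1)]
        simp [h0]
      have hx1' : (inv x).1 ≠ b.1 := by simpa using hx1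
      rw [hs]
      by_cases hx : some x ∈ B <;> by_cases hx' : some (inv x) ∈ B
      · rw [lab_mem hB hx1 hx, Ne, lab_mem hB hx1' hx', key x]
        simp [hx, hx', mul_assoc]
      · rw [lab_mem hB hx1 hx, Ne, lab_notMem hx1' hx', key x]
        simp [hx, hx', mul_assoc]
      · rw [lab_notMem hx1 hx, Ne, lab_mem hB hx1' hx', key x]
        simp [hx, hx', mul_assoc]
      · rw [lab_notMem hx1 hx, Ne, lab_notMem hx1' hx', key x]
        simp [hx, hx']

variable [Fintype ι]

/-! ### the base point -/

omit [Fintype ι] in
lemma tw_inv (a : Ltr ι) (f : Ltr ι → ℤ) : tw (inv a) f = tw a (-f) := by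
  apply aut_ext
  intro i
  rw [← el_true, tw_el, tw_el, el_inv]
  simp

lemma twc_compl (a : Ltr ι) (A : Finset (Option (Ltr ι))) : twc (inv a) Aᶜ = twc a A := by
  rw [twc, tw_inv, twc]
  congr 1
  funext x
  simp only [Pi.neg_apply, Finset.mem_compl]
  by_cases h1 : some x ∈ A <;> by_cases h2 : none ∈ A <;> simp [h1, h2]

lemma adm_compl {a : Ltr ι} {A : Finset (Option (Ltr ι))} (h : Adm a A) : Adm (inv a) Aᶜ := by
  obtain ⟨h1, h2⟩ := h
  refine ⟨by simpa using h2, by simpa using h1⟩

/-! ### change of height -/

lemma hgt_twc_aux (w : ι → FreeGroup ι) (a : Ltr ι) (A : Finset (Option (Ltr ι))) (hA : Adm a A)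
    (h0 : none ∉ A) :
    hgt (fun i => twc a A (w i)) + cut w (hs {some a}) = hgt w + cut w (hs A) := by
  have hset : ∀ x : Ltr ι, cut (fun i => twc a A (w i)) (hs {some x}) =
      cut w {g | lab a A g = some x} := by
    intro x
    rw [cut_aut]
    congr 1
    ext g
    simp only [hs, Set.mem_ofPred_eq, Finset.mem_singleton, fl_twc a A hA h0]
  have hother : ∀ x : Ltr ι, x.1 ≠ a.1 → cut w {g | lab a A g = some x} = cut w (hs {some x}) := by
    intro x hx
    by_cases hxA : some x ∈ A
    · rw [← cut_smul w (hs {some x}) (el a)]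
      congr 1
      ext g
      simp only [hs, Set.mem_ofPred_eq, Finset.mem_singleton, lab_mem hA hx hxA]
    · congr 1
      ext g
      simp only [hs, Set.mem_ofPred_eq, Finset.mem_singleton, lab_notMem hx hxA]
  have hself : cut w {g | lab a A g = some (a.1, true)} = cut w (hs A) := by
    rcases (show (a.1, true) = a ∨ (a.1, true) = inv a from eq_or_eq_inv rfl) with h | h
    · rw [h]
      congr 1
      ext g
      simp only [hs, Set.mem_ofPred_eq, lab_b hA]
    · rw [h, ← cut_smul w (hs A) (el a), ← cut_compl]
      congr 1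
      ext g
      simp only [hs, Set.mem_ofPred_eq, lab_binv hA, Set.mem_compl_iff, not_not]
  have hone : cut w (hs {some (a.1, true)}) = cut w (hs {some a}) := by
    rcases (show (a.1, true) = a ∨ (a.1, true) = inv a from eq_or_eq_inv rfl) with h | h
    · rw [h]
    · rw [h, cut_hs_inv]
  rw [hgt_eq, hgt_eq]
  simp_rw [hset]
  rw [← Finset.add_sum_erase Finset.univ (fun i => cut w {g | lab a A g = some (i, true)})
      (Finset.mem_univ a.1), hself,
    ← Finset.add_sum_erase Finset.univ (fun i => cut w (hs {some (i, true)}))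
      (Finset.mem_univ a.1), hone]
  have hsum : ∑ i ∈ Finset.univ.erase a.1, cut w {g | lab a A g = some (i, true)} =
      ∑ i ∈ Finset.univ.erase a.1, cut w (hs {some (i, true)}) := by
    refine Finset.sum_congr rfl fun i hi => ?_
    exact hother (i, true) (Finset.ne_of_mem_erase hi)
  rw [hsum]
  ring

/-- the change of height under a Whitehead automorphism -/
theorem hgt_twc (w : ι → FreeGroup ι) (a : Ltr ι) (A : Finset (Option (Ltr ι))) (hA : Adm a A) :
    hgt (fun i => twc a A (w i)) + cut w (hs {some a}) = hgt w + cut w (hs A) := by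
  by_cases h0 : none ∈ A
  · have h1 := hgt_twc_aux w (inv a) Aᶜ (adm_compl hA) (by simpa using h0)
    rw [twc_compl, cut_hs_inv, cut_hs_compl] at h1
    exact h1
  · exact hgt_twc_aux w a A hA h0

/-! ### cuts on the other side -/

lemma cut_twc_aux (w : ι → FreeGroup ι) (b : Ltr ι) (S B : Finset (Option (Ltr ι)))
    (hB : Adm b B) (hd : Disjoint S B) (hb : some (inv b) ∉ S) :
    cut (fun i => twc b B (w i)) (hs S) = cut w (hs S) := by
  by_cases h0 : none ∈ B
  · have hB' := adm_compl hB
    have h0' : none ∉ Bᶜ := by simpa using h0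
    have hSB : ∀ {y}, y ∈ S → y ∈ Bᶜ := fun hy => by
      rw [Finset.mem_compl]; exact Finset.disjoint_left.1 hd hy
    rw [← twc_compl b B, cut_aut, ← cut_smul w (hs S) (el (inv b))]
    congr 1
    ext g
    simp only [hs, Set.mem_ofPred_eq, fl_twc (inv b) Bᶜ hB' h0']
    constructor
    · intro h
      unfold lab at h
      split_ifs at h with h1 h2 h3
      · exact absurd h hb
      · exact h
      · rw [inv_inv] at h
        have := hSB h
        rw [Finset.mem_compl] at this
        exact absurd hB.1 this
      · exact absurd (hSB h) h1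
    · intro h
      rcases h3 : fl (el (inv b) * g) with _ | y
      · rw [h3] at h
        have := hSB h
        exact absurd this h0'
      · rw [h3] at h
        have hy : y ≠ inv b := by rintro rfl; exact hb h
        have hyB := hSB h
        have hyb : y ≠ b := by
          rintro rfl
          rw [Finset.mem_compl] at hyB
          exact hyB hB.1
        have hy1 : y.1 ≠ (inv b).1 := by
          intro hc
          rcases eq_or_eq_inv hc with h4 | h4
          · exact hy h4
          · exact hyb (by rw [h4, inv_inv])
        have : lab (inv b) Bᶜ g = some y := (lab_mem hB' hy1 hyB g).2 h3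
        rw [this]
        exact h
  · rw [cut_aut]
    congr 1
    ext g
    simp only [hs, Set.mem_ofPred_eq, fl_twc b B hB h0]
    have hnB : ∀ {y}, y ∈ S → y ∉ B := fun hy => Finset.disjoint_left.1 hd hy
    constructor
    · intro h
      unfold lab at h
      split_ifs at h with h1 h2 h3
      · exact absurd hB.1 (hnB h)
      · exact absurd h3 (hnB h)
      · exact absurd h hb
      · exact h
    · intro h
      unfold lab
      rw [if_neg (hnB h), if_neg]
      · exact h
      · intro h2
        rw [h2] at h
        exact hb h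

/-- a Whitehead automorphism does not change the cuts on the other side -/
theorem cut_twc (w : ι → FreeGroup ι) (a b : Ltr ι) (A B : Finset (Option (Ltr ι)))
    (hA : Adm a A) (hB : Adm b B) (hd : Disjoint A B) (hb : some (inv b) ∉ A) :
    cut (fun i => twc b B (w i)) (hs A) = cut w (hs A) ∧
      cut (fun i => twc b B (w i)) (hs {some a}) = cut w (hs {some a}) := by
  refine ⟨cut_twc_aux w b A B hB hd hb, cut_twc_aux w b {some a} B hB ?_ ?_⟩
  · rw [Finset.disjoint_singleton_left]
    exact Finset.disjoint_left.1 hd hA.1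
  · rw [Finset.mem_singleton]
    intro h
    exact hb (h ▸ hA.1)

end Pool.Agent.Helper23.OP
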